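import Pool.Agent.Helper38.SG.Basic

/-! # Sobolev gap, piece CALC-A: adjoint representation -/

open Filter Topology Set
open scoped RealInnerProductSpace ContDiff

universe u

namespace Pool.Agent.Helper87.SG

open Pool.Agent.Helper38.SG

variable {G 𝔤 : Type u} [Group G] [TopologicalSpace G] [IsTopologicalGroup G]
  [NormedAddCommGroup 𝔤] [InnerProductSpace ℝ 𝔤] [FiniteDimensional ℝ 𝔤]

section pre

omit [IsTopologicalGroup G] [FiniteDimensional ℝ 𝔤]

theorem eq_of_exp_smul (L : LieData G 𝔤) {X Y : 𝔤}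
    (h : ∀ s : ℝ, L.exp (s • X) = L.exp (s • Y)) : X = Y := by
  obtain ⟨e, he, hexp⟩ := L.exp_chart
  have hs : e.source ∈ 𝓝 (0 : 𝔤) := e.open_source.mem_nhds he
  have hX : ∀ᶠ s : ℝ in 𝓝 0, s • X ∈ e.source := by
    have : Tendsto (fun s : ℝ => s • X) (𝓝 0) (𝓝 ((0 : ℝ) • X)) :=
      (continuous_id.smul continuous_const).tendsto 0
    rw [zero_smul] at this
    exact this hs
  have hY : ∀ᶠ s : ℝ in 𝓝 0, s • Y ∈ e.source := by
    have : Tendsto (fun s : ℝ => s • Y) (𝓝 0) (𝓝 ((0 : ℝ) • Y)) :=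
      (continuous_id.smul continuous_const).tendsto 0
    rw [zero_smul] at this
    exact this hs
  have hXY : ∀ᶠ s : ℝ in 𝓝[≠] 0, s • X ∈ e.source ∧ s • Y ∈ e.source :=
    (hX.and hY).filter_mono nhdsWithin_le_nhds
  obtain ⟨s, ⟨h1, h2⟩, h3⟩ := (hXY.and self_mem_nhdsWithin).exists
  have h4 : e (s • X) = e (s • Y) := by rw [hexp _ h1, hexp _ h2, h s]
  have h5 : s • X = s • Y := e.injOn h1 h2 h4
  exact smul_right_injective 𝔤 (show s ≠ 0 from h3) h5

theorem Ad_exp_zero (L : LieData G 𝔤) (X Y : 𝔤) : L.Ad (L.exp ((0 : ℝ) • X)) Y = Y := by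
  rw [zero_smul, L.exp_zero, map_one, Module.End.one_apply]

theorem hasDerivAt_Ad_exp (L : LieData G 𝔤) (X Y : 𝔤) (t : ℝ) :
    HasDerivAt (fun s : ℝ => L.Ad (L.exp (s • X)) Y) (L.br X (L.Ad (L.exp (t • X)) Y)) t := by
  have h := L.hasDerivAt_Ad X (L.Ad (L.exp (t • X)) Y)
  have h2 : HasDerivAt (fun s : ℝ => L.Ad (L.exp ((s - t) • X)) (L.Ad (L.exp (t • X)) Y))
      (L.br X (L.Ad (L.exp (t • X)) Y)) t := by
    have h3 : HasDerivAt (fun s : ℝ => s - t) 1 t := (hasDerivAt_id t).sub_const t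
    have h4 := HasDerivAt.scomp (h := fun s : ℝ => s - t) t
      (by rw [sub_self]; exact h : HasDerivAt
        (fun s : ℝ => L.Ad (L.exp (s • X)) (L.Ad (L.exp (t • X)) Y))
        (L.br X (L.Ad (L.exp (t • X)) Y)) (t - t)) h3
    rw [one_smul] at h4
    exact h4
  have h5 : (fun s : ℝ => L.Ad (L.exp ((s - t) • X)) (L.Ad (L.exp (t • X)) Y)) =
      fun s : ℝ => L.Ad (L.exp (s • X)) Y := by
    funext s
    rw [← Module.End.mul_apply, ← map_mul, ← L.exp_add_smul, sub_add_cancel]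
  rwa [h5] at h2

end pre

omit [IsTopologicalGroup G] in
theorem Ad_exp (L : LieData G 𝔤) (X Y : 𝔤) : L.Ad (L.exp X) Y =
    NormedSpace.exp (LinearMap.toContinuousLinearMap (L.br X)) Y := by
  set A : 𝔤 →L[ℝ] 𝔤 := LinearMap.toContinuousLinearMap (L.br X) with hA
  have : CompleteSpace 𝔤 := FiniteDimensional.complete ℝ 𝔤
  let inst : NormedAlgebra ℚ (𝔤 →L[ℝ] 𝔤) := NormedAlgebra.restrictScalars ℚ ℝ _
  set y : ℝ → 𝔤 := fun s => L.Ad (L.exp (s • X)) Y with hy
  have hd : ∀ t : ℝ, HasDerivAt y (A (y t)) t := fun t => hasDerivAt_Ad_exp L X Y t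
  have he : ∀ t : ℝ, HasDerivAt (fun s : ℝ => NormedSpace.exp (s • (-A)))
      (NormedSpace.exp (t • (-A)) * (-A)) t := fun t => hasDerivAt_exp_smul_const (-A) t
  have hz : ∀ t : ℝ, HasDerivAt (fun s : ℝ => NormedSpace.exp (s • (-A)) (y s)) 0 t := by
    intro t
    have h := (he t).clm_apply (hd t)
    have h0 : (NormedSpace.exp (t • (-A)) * (-A)) (y t) +
        NormedSpace.exp (t • (-A)) (A (y t)) = 0 := by
      rw [ContinuousLinearMap.mul_apply, ContinuousLinearMap.neg_apply, map_neg, neg_add_cancel]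
    rw [h0] at h
    exact h
  have hc := is_const_of_deriv_eq_zero (fun t => (hz t).differentiableAt)
    (fun t => (hz t).deriv) 1 0
  have hc' : NormedSpace.exp (-A) (y 1) = Y := by
    have h1 : NormedSpace.exp ((1 : ℝ) • (-A)) (y 1) = NormedSpace.exp ((0 : ℝ) • (-A)) (y 0) := hc
    rw [one_smul, zero_smul, NormedSpace.exp_zero, ContinuousLinearMap.one_apply] at h1
    rw [h1, hy]
    exact Ad_exp_zero L X Y
  have h2 : NormedSpace.exp A * NormedSpace.exp (-A) = 1 := by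
    rw [← NormedSpace.exp_add_of_commute (Commute.neg_right (Commute.refl A)), add_neg_cancel,
      NormedSpace.exp_zero]
  have h3 : y 1 = NormedSpace.exp A Y := by
    conv_rhs => rw [← hc']
    rw [← ContinuousLinearMap.mul_apply, h2, ContinuousLinearMap.one_apply]
  rw [← h3, hy]
  simp only [one_smul]

omit [IsTopologicalGroup G] in
theorem Ad_br (L : LieData G 𝔤) (g : G) (X Y : 𝔤) :
    L.Ad g (L.br X Y) = L.br (L.Ad g X) (L.Ad g Y) := by
  have h1 : HasDerivAt (fun t : ℝ => L.Ad g (L.Ad (L.exp (t • X)) Y)) (L.Ad g (L.br X Y)) 0 :=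
    (LinearMap.toContinuousLinearMap (L.Ad g)).hasFDerivAt.comp_hasDerivAt 0
      (L.hasDerivAt_Ad X Y)
  have h2 := L.hasDerivAt_Ad (L.Ad g X) (L.Ad g Y)
  have h3 : (fun t : ℝ => L.Ad g (L.Ad (L.exp (t • X)) Y)) =
      fun t : ℝ => L.Ad (L.exp (t • L.Ad g X)) (L.Ad g Y) := by
    funext t
    rw [← map_smul, L.exp_Ad, ← Module.End.mul_apply, ← Module.End.mul_apply, ← map_mul,
      ← map_mul, inv_mul_cancel_right]
  rw [h3] at h1
  exact h1.unique h2

omit [IsTopologicalGroup G] [FiniteDimensional ℝ 𝔤] in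
theorem br_self (L : LieData G 𝔤) (X : 𝔤) : L.br X X = 0 := by
  have h1 : ∀ t : ℝ, L.Ad (L.exp (t • X)) X = X := by
    intro t
    apply eq_of_exp_smul L
    intro s
    rw [← map_smul, L.exp_Ad, ← L.exp_add_smul, add_comm, L.exp_add_smul, mul_inv_cancel_right]
  have h2 := L.hasDerivAt_Ad X X
  simp only [h1] at h2
  exact h2.unique (hasDerivAt_const 0 X)

omit [IsTopologicalGroup G] in
theorem jacobi (L : LieData G 𝔤) (X Y Z : 𝔤) :
    L.br X (L.br Y Z) = L.br (L.br X Y) Z + L.br Y (L.br X Z) := by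
  set B : 𝔤 →L[ℝ] 𝔤 →L[ℝ] 𝔤 := LinearMap.toContinuousLinearMap
    ((LinearMap.toContinuousLinearMap : (𝔤 →ₗ[ℝ] 𝔤) ≃ₗ[ℝ] (𝔤 →L[ℝ] 𝔤)).toLinearMap ∘ₗ L.br)
    with hB
  have hBa : ∀ U V : 𝔤, B U V = L.br U V := fun U V => rfl
  have h1 := L.hasDerivAt_Ad X (L.br Y Z)
  have hY := L.hasDerivAt_Ad X Y
  have hZ := L.hasDerivAt_Ad X Z
  have h2 : HasDerivAt (fun t : ℝ => B (L.Ad (L.exp (t • X)) Y))
      (B (L.br X Y)) 0 := B.hasFDerivAt.comp_hasDerivAt 0 hY
  have h3 := h2.clm_apply hZ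
  simp only [Ad_exp_zero, hBa] at h3
  have h4 : (fun t : ℝ => L.br (L.Ad (L.exp (t • X)) Y) (L.Ad (L.exp (t • X)) Z)) =
      fun t : ℝ => L.Ad (L.exp (t • X)) (L.br Y Z) := by
    funext t
    rw [Ad_br]
  rw [h4] at h3
  exact h1.unique h3

omit [IsTopologicalGroup G] in
/-- joint continuity of `Ad` -/
theorem continuous_Ad_uncurry (L : LieData G 𝔤) :
    Continuous fun p : G × 𝔤 => L.Ad p.1 p.2 := by
  set b := stdOrthonormalBasis ℝ 𝔤 with hb
  have h : (fun p : G × 𝔤 => L.Ad p.1 p.2) =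
      fun p : G × 𝔤 => ∑ i, ⟪b i, p.2⟫ • L.Ad p.1 (b i) := by
    funext p
    conv_lhs => rw [← b.sum_repr' p.2]
    rw [map_sum]
    simp only [map_smul]
  rw [h]
  refine continuous_finsetSum _ (fun i _ => ?_)
  exact (continuous_const.inner continuous_snd).smul ((L.continuous_Ad (b i)).comp continuous_fst)

end Pool.Agent.Helper87.SG
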